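import Mathlib
import Pool.Agent.R383.Cong.Poly

/-!
# Powers of the conjugates and congruences: the two basic inequalities

For a monic irreducible integer polynomial `f` with `M(f) > 1` whose zeros have pairwise distinct
`K`-th powers the determinant inequalities of the starting files are applied to the conjugates of
`α ^ K` (modulo an integer `q`) and of `α ^ (K p ^ a)`, `a < k` (modulo a prime number `p`).
-/

set_option autoImplicit false

open Polynomial Finset Module IntermediateField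

namespace Pool.Agent.Helper692_LM

open Pool.Agent.H388SL Pool.Agent.TH53.HR Pool.Agent.R383.Cong

/-- passage to a number field -/
theorem to_field (f : ℤ[X]) (hf : Irreducible f) (hm : f.Monic)
    (hM : 1 < (f.map (Int.castRingHom ℂ)).mahlerMeasure) :
    ∃ (K : Type) (_ : Field K) (_ : NumberField K) (α : K), IsIntegral ℤ α ∧ α ≠ 0 ∧
      (∀ n : ℕ, 0 < n → α ^ n ≠ 1) ∧ CInj α ∧
      finrank ℚ K = f.natDegree ∧ lam α = Real.log (f.map (Int.castRingHom ℂ)).mahlerMeasure ∧
      (∀ σ : K →ₐ[ℚ] ℂ, aeval (σ α) f = 0) ∧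
      f.map (Int.castRingHom ℂ) = ∏ τ : K →ₐ[ℚ] ℂ, (X - C (τ α)) := by
  classical
  have hdeg : f.natDegree ≠ 0 := by
    intro h
    have := hm.natDegree_eq_zero.mp h
    exact hf.not_isUnit (this ▸ isUnit_one)
  obtain ⟨z, hz⟩ := IsAlgClosed.exists_aeval_eq_zero ℂ f (by
    intro h
    exact hdeg (natDegree_eq_of_degree_eq_some h))
  have hzi : IsIntegral ℤ z := ⟨f, hm, by rw [← Polynomial.aeval_def]; exact hz⟩
  have hzQ : IsIntegral ℚ z := hzi.tower_top
  have hmin : minpoly ℤ z = f := by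
    have h1 := minpoly.isIntegrallyClosed_dvd hzi hz
    have h2 : Associated (minpoly ℤ z) f :=
      (minpoly.irreducible hzi).associated_of_dvd hf h1
    exact eq_of_monic_of_associated (minpoly.monic hzi) hm h2
  set L := adjoin ℚ {z} with hL
  have hfin : FiniteDimensional ℚ L := adjoin.finiteDimensional hzQ
  have hNF : NumberField L := { to_charZero := inferInstance, to_finiteDimensional := hfin }
  set α : L := AdjoinSimple.gen ℚ z with hα
  have hαz : algebraMap L ℂ α = z := AdjoinSimple.algebraMap_gen ℚ z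
  have hαi : IsIntegral ℤ α := by
    rw [← hαz] at hzi
    exact (isIntegral_algebraMap_iff (algebraMap L ℂ).injective).mp hzi
  have hαc : CInj α := by
    intro σ τ h
    apply adjoin_algHom_ext ℚ (s := {z})
    intro x hx
    rw [Set.mem_singleton_iff] at hx
    subst hx
    exact h
  have hminα : minpoly ℤ α = f := by
    rw [← hmin, ← hαz]
    exact (minpoly.algebraMap_eq (algebraMap L ℂ).injective α).symm
  have hpmap : f.map (Int.castRingHom ℂ) = ∏ τ : L →ₐ[ℚ] ℂ, (X - C (τ α)) := by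
    rw [← minpoly_map_eq hαc, minpoly.isIntegrallyClosed_eq_field_fractions' ℚ hαi, hminα,
      Polynomial.map_map]
    rfl
  have hMM : Real.log (f.map (Int.castRingHom ℂ)).mahlerMeasure = lam α := by
    rw [hpmap]
    have h1 : (∏ τ : L →ₐ[ℚ] ℂ, (X - C (τ α))).mahlerMeasure = ∏ τ : L →ₐ[ℚ] ℂ, max 1 ‖τ α‖ := by
      rw [Finset.prod_eq_multiset_prod, prod_mahlerMeasure_eq_mahlerMeasure_prod, Multiset.map_map,
        Finset.prod_eq_multiset_prod]
      congr 1
      refine Multiset.map_congr rfl fun τ _ => ?_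
      rw [Function.comp_apply, mahlerMeasure_X_sub_C]
    rw [h1, Real.log_prod]
    · rfl
    · intro τ _
      have : (0:ℝ) < max 1 ‖τ α‖ := lt_of_lt_of_le one_pos (le_max_left _ _)
      exact this.ne'
  have hfr : finrank ℚ L = f.natDegree := by
    rw [hL, adjoin.finrank hzQ, minpoly.isIntegrallyClosed_eq_field_fractions' ℚ hzi, hmin]
    exact natDegree_map_eq_of_injective (algebraMap ℤ ℚ).injective_int f
  have hlampos : 0 < lam α := by
    rw [← hMM]; exact Real.log_pos hM
  have hα0 : α ≠ 0 := by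
    intro h
    rw [h] at hlampos
    unfold lam at hlampos
    simp at hlampos
  have hαroot : ∀ n : ℕ, 0 < n → α ^ n ≠ 1 := by
    intro n hn h
    have h1 := lam_pow α n
    rw [h] at h1
    have h2 : lam (1 : L) = 0 := by unfold lam; simp
    rw [h2] at h1
    have h3 : (0:ℝ) < n := by exact_mod_cast hn
    have : 0 < (n:ℝ) * lam α := mul_pos h3 hlampos
    linarith
  have hzero : ∀ σ : L →ₐ[ℚ] ℂ, aeval (σ α) f = 0 := by
    intro σ
    rw [← map_aevalZ, ← hminα, minpoly.aeval, map_zero]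
  exact ⟨L, inferInstance, hNF, α, hαi, hα0, hαroot, hαc, hfr, hMM.symm, hzero, hpmap⟩

/-- the inequality modulo `q` for the conjugates of `α ^ K` -/
theorem ineq_q (f : ℤ[X]) (hf : Irreducible f) (hm : f.Monic)
    (hM : 1 < (f.map (Int.castRingHom ℂ)).mahlerMeasure) {K : ℕ}
    (hnd : ∀ z w : ℂ, aeval z f = 0 → aeval w f = 0 → z ^ K = w ^ K → z = w)
    (h : ℤ[X]) (hhm : h.Monic) (hht : 0 < h.natDegree) {q : ℕ} (hq : 2 ≤ q)
    (hhf : expand ℤ K h ∈ Ideal.span {f, C (q : ℤ)}) :
    ((f.natDegree : ℝ) - 2 * h.natDegree) * Real.log q ≤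
      h.natDegree * (Real.log f.natDegree +
        2 * K * Real.log (f.map (Int.castRingHom ℂ)).mahlerMeasure) := by
  have hdeg : f.natDegree ≠ 0 := by
    intro h
    have := hm.natDegree_eq_zero.mp h
    exact hf.not_isUnit (this ▸ isUnit_one)
  obtain ⟨L, _, _, α, hα, h0, hroot, hc, hfr, hlam, hzero, -⟩ := to_field f hf hm hM
  obtain ⟨a, b, hab⟩ := Ideal.mem_span_pair.mp hhf
  have hcK : CInj (α ^ K) := by
    intro σ τ hst
    simp only [map_pow] at hst
    exact hc (hnd _ _ (hzero σ) (hzero τ) hst)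
  have hq0 : (q : ℂ) ≠ 0 := by exact_mod_cast (by omega : q ≠ 0)
  let v : (L →ₐ[ℚ] ℂ) → ℂ := fun σ => σ (α ^ K)
  have hval : ∀ σ : L →ₐ[ℚ] ℂ, IsIntegral ℤ (aeval (v σ) h / q) := by
    intro σ
    have h1 : aeval (v σ) h / q = aeval (σ α) b := by
      have h2 : aeval (v σ) h = aeval (σ α) (expand ℤ K h) := by
        rw [Polynomial.expand_aeval]
        simp [v]
      rw [h2, ← hab, map_add, map_mul, map_mul, hzero σ, mul_zero, zero_add, aeval_C]
      have : (algebraMap ℤ ℂ) (q : ℤ) = (q : ℂ) := by simp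
      rw [this]
      field_simp
    rw [h1]
    exact aeval_int (hα.map (σ.restrictScalars ℤ)) b
  have hs : ∀ j : ℕ, ∃ m : ℤ, ∑ σ, v σ ^ j = m := by
    intro j
    obtain ⟨m, hm⟩ := trace_int ((hα.pow K).pow j)
    refine ⟨m, ?_⟩
    rw [← hm]
    refine Finset.sum_congr rfl fun σ _ => ?_
    rw [map_pow σ (α ^ _)]
  have key := q_ineq hq v hcK (fun σ => (hα.pow _).map (σ.restrictScalars ℤ)) hs h hhm hht hval
  rw [AlgHom.card ℚ L ℂ, hfr] at key
  have hsum : ∑ σ, Real.log (max 1 ‖v σ‖) =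
      K * Real.log (f.map (Int.castRingHom ℂ)).mahlerMeasure := by
    have := lam_pow α K
    rw [← hlam, ← this]
    rfl
  rw [hsum] at key
  have hn0 : (0:ℝ) < f.natDegree := by exact_mod_cast Nat.pos_of_ne_zero hdeg
  have e1 : (f.natDegree : ℝ) * ((f.natDegree : ℝ) - 2 * h.natDegree) * Real.log q =
      f.natDegree * (((f.natDegree : ℝ) - 2 * h.natDegree) * Real.log q) := by ring
  have e2 : (h.natDegree : ℝ) * (f.natDegree * (Real.log f.natDegree +
        2 * (K * Real.log (f.map (Int.castRingHom ℂ)).mahlerMeasure))) =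
      f.natDegree * (h.natDegree * (Real.log f.natDegree +
        2 * K * Real.log (f.map (Int.castRingHom ℂ)).mahlerMeasure)) := by ring
  rw [e1, e2] at key
  exact le_of_mul_le_mul_left key hn0

/-- the inequality modulo `p` for the conjugates of `α ^ (K p ^ a)`, `a < k` -/
theorem ineq_p (f : ℤ[X]) (hf : Irreducible f) (hm : f.Monic)
    (hM : 1 < (f.map (Int.castRingHom ℂ)).mahlerMeasure) {K p : ℕ} (hK : 0 < K) (hp : p.Prime)
    (hnd : ∀ z w : ℂ, aeval z f = 0 → aeval w f = 0 → ∀ s : ℕ,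
      z ^ (K * p ^ s) = w ^ (K * p ^ s) → z = w)
    (A B : (ZMod p)[X]) (hAB : f.map (Int.castRingHom (ZMod p)) = A * B) (hco : IsCoprime A B)
    (h : ℤ[X]) (hhm : h.Monic) (hht : 0 < h.natDegree)
    (hAh : A ∣ expand (ZMod p) K (h.map (Int.castRingHom (ZMod p)))) (k : ℕ) (hk : 0 < k) :
    ∃ g : ℕ, A.natDegree ≤ g ∧ g ≤ f.natDegree ∧
    (g : ℝ) * (k * g - 2 * h.natDegree) * Real.log p ≤
      h.natDegree * (f.natDegree * (Real.log (k * f.natDegree) +
        2 * (∑ a ∈ Finset.range k, (p : ℝ) ^ a) *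
          (K * Real.log (f.map (Int.castRingHom ℂ)).mahlerMeasure))) := by
  classical
  obtain ⟨L, _, _, α, hα, h0, hroot, hc, hfr, hlam, hzero, hpmap⟩ := to_field f hf hm hM
  have hcK : ∀ s : ℕ, CInj ((α ^ K) ^ p ^ s) := by
    intro s σ τ hst
    simp only [map_pow, ← pow_mul] at hst
    exact hc (hnd _ _ (hzero σ) (hzero τ) s hst)
  have hrootK : ∀ n : ℕ, 0 < n → (α ^ K) ^ n ≠ 1 := by
    intro n hn
    rw [← pow_mul]
    exact hroot _ (Nat.mul_pos hK hn)
  obtain ⟨V, hV⟩ := exists_val p hp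
  have hαV : ∀ σ : L →ₐ[ℚ] ℂ, σ α ∈ V := fun σ => hV.int _ (hα.map (σ.restrictScalars ℤ))
  set G : Finset (L →ₐ[ℚ] ℂ) :=
    Finset.univ.filter fun σ => (aeval (σ α) (expand ℤ K h)) ^ 1 / p ∈ V with hG
  have hcount := count_good hp hV f (fun σ : L →ₐ[ℚ] ℂ => (⟨σ α, hαV σ⟩ : V)) hpmap A B hAB hco
    (expand ℤ K h) 1 (by rw [pow_one, Polynomial.map_expand]; exact hAh) G
    (fun σ hσ => by rw [hG, Finset.mem_filter]; exact ⟨Finset.mem_univ _, hσ⟩)
  have hGn : G.card ≤ f.natDegree := by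
    rw [← hfr, ← AlgHom.card ℚ L ℂ]
    exact Finset.card_le_univ G
  refine ⟨G.card, hcount, hGn, ?_⟩
  have key := field_ineq hp hV (hα.pow K) (pow_ne_zero K h0) hrootK hcK h hhm hht (E := 1) (s := 0)
    (by simp) G (fun σ hσ => by
      rw [hG, Finset.mem_filter] at hσ
      have h1 : aeval (σ (α ^ K)) h = aeval (σ α) (expand ℤ K h) := by
        rw [Polynomial.expand_aeval]
        simp
      rw [h1]
      exact hσ.2) k hk
  rw [hfr, lam_pow, hlam] at key
  rw [pow_zero, one_mul] at key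
  exact key

end Pool.Agent.Helper692_LM
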