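import Mathlib
import Pool.Agent.Helper692_LM.Core

/-!
# Lower bounds for the Mahler measure
-/

set_option autoImplicit false

open Polynomial Finset Module

namespace Pool.Agent.Helper692_LM

open Pool.Agent.TH53.HR Pool.Agent.H389R3.LR

/-- passage from monic polynomials to all irreducible polynomials -/
lemma reduction (f : ℤ[X]) (hf : Irreducible f)
    (hM : 1 < (f.map (Int.castRingHom ℂ)).mahlerMeasure) (y : ℝ)
    (key : ∀ g : ℤ[X], g = f ∨ g = -f → Irreducible g → g.Monic →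
      1 < (g.map (Int.castRingHom ℂ)).mahlerMeasure →
      y ≤ Real.log (g.map (Int.castRingHom ℂ)).mahlerMeasure) :
    min 2 (Real.exp y) ≤ (f.map (Int.castRingHom ℂ)).mahlerMeasure := by
  rcases le_or_gt 2 (f.map (Int.castRingHom ℂ)).mahlerMeasure with h2 | h2
  · exact (min_le_left _ _).trans h2
  refine (min_le_right _ _).trans ?_
  have hM0 : 0 < (f.map (Int.castRingHom ℂ)).mahlerMeasure := by linarith
  rw [← Real.le_log_iff_exp_le hM0]
  obtain ⟨hlc, -⟩ := Pool.Agent.H389R3.LP.units_of_lt_two f hf hM h2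
  rcases (abs_eq (zero_le_one' ℤ)).mp hlc with h3 | h3
  · exact key f (Or.inl rfl) hf h3 hM
  · have hMneg := MM_neg' f
    have h4 := key (-f) (Or.inr rfl)
      ((Associated.irreducible_iff (Associated.neg_left (Associated.refl f))).mpr hf)
      (by rw [Monic, leadingCoeff_neg, h3]; rfl) (by rw [hMneg]; exact hM)
    rwa [hMneg] at h4

lemma zeros_pm {f g : ℤ[X]} (hg : g = f ∨ g = -f) (z : ℂ) : aeval z g = 0 → aeval z f = 0 := by
  rcases hg with rfl | rfl
  · exact id
  · intro h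
    rwa [map_neg, neg_eq_zero] at h

lemma span_pm {f g : ℤ[X]} (hg : g = f ∨ g = -f) (q : ℤ) :
    Ideal.span {g, C q} = Ideal.span {f, C q} := by
  rcases hg with rfl | rfl
  · rfl
  · rw [Ideal.span_insert, Ideal.span_insert, Ideal.span_singleton_neg]

lemma natDegree_pm {f g : ℤ[X]} (hg : g = f ∨ g = -f) : g.natDegree = f.natDegree := by
  rcases hg with rfl | rfl
  · rfl
  · exact natDegree_neg _

lemma irr_natDegree {g : ℤ[X]} (hg : Irreducible g) (hm : g.Monic) : 1 ≤ g.natDegree := by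
  rw [Nat.one_le_iff_ne_zero]
  intro h
  have := hm.natDegree_eq_zero.mp h
  exact hg.not_isUnit (this ▸ isUnit_one)

/-- the bound modulo an integer for monic polynomials -/
theorem monic_q (g : ℤ[X]) (hgi : Irreducible g) (hgm : g.Monic)
    (hgM : 1 < (g.map (Int.castRingHom ℂ)).mahlerMeasure) {K : ℕ} (hK : 0 < K)
    (hnd : ∀ z w : ℂ, aeval z g = 0 → aeval w g = 0 → z ^ K = w ^ K → z = w)
    {q : ℕ} (hq : 2 ≤ q) (h : ℤ[X]) (hhm : h.Monic) (hht : 0 < h.natDegree)
    (hhf : expand ℤ K h ∈ Ideal.span {g, C (q : ℤ)})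
    (hd : 4 * h.natDegree * (Real.log (2 * g.natDegree) + Real.log q) ≤
      g.natDegree * Real.log q) :
    g.natDegree * Real.log q / (4 * K * h.natDegree) ≤
      Real.log (g.map (Int.castRingHom ℂ)).mahlerMeasure := by
  have h1 := ineq_q g hgi hgm hgM (K := K) hnd h hhm hht hq hhf
  have hn := irr_natDegree hgi hgm
  have hn1 : (1:ℝ) ≤ g.natDegree := by exact_mod_cast hn
  have hd1 : (1:ℝ) ≤ h.natDegree := by exact_mod_cast hht
  have hK1 : (1:ℝ) ≤ K := by exact_mod_cast hK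
  have hq2 : (2:ℝ) ≤ q := by exact_mod_cast hq
  have hlq : 0 < Real.log q := Real.log_pos (by linarith)
  set n : ℝ := (g.natDegree : ℝ) with hnn
  set d : ℝ := (h.natDegree : ℝ) with hdd
  set l : ℝ := Real.log (2 * n) with hl
  set lM : ℝ := Real.log (g.map (Int.castRingHom ℂ)).mahlerMeasure with hlM
  have hl0 : 0 ≤ l := Real.log_nonneg (by linarith)
  have hln : Real.log n ≤ l := Real.log_le_log (by linarith) (by linarith)
  rw [div_le_iff₀ (by positivity)]
  have h2 : d * Real.log n ≤ d * l := mul_le_mul_of_nonneg_left hln (by linarith)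
  have h3 : 0 ≤ d * l := by positivity
  nlinarith

/-- **the bound modulo an integer** -/
theorem bound_q (f : ℤ[X]) (hf : Irreducible f)
    (hM : 1 < (f.map (Int.castRingHom ℂ)).mahlerMeasure) {K : ℕ} (hK : 0 < K)
    (hnd : ∀ z w : ℂ, aeval z f = 0 → aeval w f = 0 → z ^ K = w ^ K → z = w)
    {q : ℕ} (hq : 2 ≤ q) (h : ℤ[X]) (hhm : h.Monic) (hht : 0 < h.natDegree)
    (hhf : expand ℤ K h ∈ Ideal.span {f, C (q : ℤ)})
    (hd : 4 * h.natDegree * (Real.log (2 * f.natDegree) + Real.log q) ≤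
      f.natDegree * Real.log q) :
    min 2 (Real.exp (f.natDegree * Real.log q / (4 * K * h.natDegree))) ≤
      (f.map (Int.castRingHom ℂ)).mahlerMeasure := by
  apply reduction f hf hM
  intro g hg hgi hgm hgM
  have hgd := natDegree_pm hg
  have h1 := monic_q g hgi hgm hgM hK
    (fun z w hz hw => hnd z w (zeros_pm hg z hz) (zeros_pm hg w hw)) hq h hhm hht
    (by rw [span_pm hg]; exact hhf) (by rw [hgd]; exact hd)
  rwa [hgd] at h1

/-- the real estimate for the bound modulo a prime number -/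
lemma est_p {n d a g c k l lk lp lkn S P Kr lM : ℝ} (hn : 1 ≤ n) (hd : 1 ≤ d) (hag : a ≤ g)
    (hgn : g ≤ n) (hac : n ≤ c * a) (ha0 : 0 ≤ a)
    (hdl : d * l ≤ c * n) (hk : 64 * c ^ 6 ≤ k) (hl2 : Real.log 2 ≤ l)
    (hlp : Real.log 2 ≤ lp) (hlk : lk ≤ 2 * √k) (hlkn : lkn ≤ lk + l)
    (hS : S ≤ P) (hK : 0 ≤ Kr) (hM : 0 ≤ lM)
    (key : g * (k * g - 2 * d) * lp ≤ d * (n * (lkn + 2 * S * (Kr * lM)))) :
    n ≤ d * (2 * P * (Kr * lM)) := by
  by_contra hcon
  push Not at hcon
  have hlog2 := Real.log_two_gt_d9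
  have hlp1 : (0.69:ℝ) ≤ lp := by linarith
  have hl1 : (0.69:ℝ) ≤ l := by linarith
  have hc1 : 1 ≤ c := by
    by_contra h
    push Not at h
    have : c * a ≤ 1 * a := mul_le_mul_of_nonneg_right h.le ha0
    nlinarith
  have hk64 : 64 ≤ k := by
    have : (1:ℝ) ≤ c ^ 6 := one_le_pow₀ hc1
    linarith
  set s : ℝ := √k with hs
  have hs2 : s * s = k := Real.mul_self_sqrt (by linarith)
  have hs0 : 0 ≤ s := Real.sqrt_nonneg _
  have hs8 : 8 ≤ s := by nlinarith
  have hc3 : 8 * c ^ 3 ≤ s := by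
    have h1 : (8 * c ^ 3) ^ 2 ≤ s ^ 2 := by
      calc (8 * c ^ 3) ^ 2 = 64 * c ^ 6 := by ring
        _ ≤ k := hk
        _ = s ^ 2 := by rw [sq, hs2]
    exact abs_le_of_sq_le_sq' h1 hs0 |>.2
  have hc2 : 8 * c ^ 2 ≤ s := by
    have : c ^ 2 ≤ c ^ 3 := pow_le_pow_right₀ hc1 (by norm_num)
    linarith
  -- upper bound
  have hKM : 0 ≤ Kr * lM := mul_nonneg hK hM
  have h1 : d * (2 * S * (Kr * lM)) ≤ n := by
    have h2 : S * (Kr * lM) ≤ P * (Kr * lM) := mul_le_mul_of_nonneg_right hS hKM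
    have h3 : d * (2 * S * (Kr * lM)) ≤ d * (2 * P * (Kr * lM)) := by
      apply mul_le_mul_of_nonneg_left _ (by linarith)
      linarith
    linarith
  have h2 : g * (k * g - 2 * d) * lp ≤ n * (d * (lk + l) + n) := by
    refine key.trans ?_
    have h3 : d * lkn ≤ d * (lk + l) := mul_le_mul_of_nonneg_left hlkn (by linarith)
    calc d * (n * (lkn + 2 * S * (Kr * lM))) = n * (d * lkn + d * (2 * S * (Kr * lM))) := by ring
      _ ≤ n * (d * (lk + l) + n) := mul_le_mul_of_nonneg_left (by linarith) (by linarith)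
  have hg0 : 0 ≤ g := ha0.trans hag
  have hcg : n ≤ c * g := hac.trans (mul_le_mul_of_nonneg_left hag (by linarith))
  have hklp : 0 ≤ k * lp := mul_nonneg (by linarith) (by linarith)
  have h3 : n ^ 2 * (k * lp) ≤ c ^ 2 * (g ^ 2 * (k * lp)) := by
    have h4 : n ^ 2 ≤ (c * g) ^ 2 := pow_le_pow_left₀ (by linarith) hcg 2
    calc n ^ 2 * (k * lp) ≤ (c * g) ^ 2 * (k * lp) := mul_le_mul_of_nonneg_right h4 hklp
      _ = c ^ 2 * (g ^ 2 * (k * lp)) := by ring
  have h4 : g ^ 2 * (k * lp) ≤ n * (d * (2 * lp + lk + l) + n) := by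
    have h5 : g * (2 * d * lp) ≤ n * (2 * d * lp) := by
      apply mul_le_mul_of_nonneg_right hgn
      have : 0 ≤ d * lp := mul_nonneg (by linarith) (by linarith)
      linarith
    calc g ^ 2 * (k * lp) = g * (k * g - 2 * d) * lp + g * (2 * d * lp) := by ring
      _ ≤ n * (d * (lk + l) + n) + n * (2 * d * lp) := add_le_add h2 h5
      _ = n * (d * (2 * lp + lk + l) + n) := by ring
  have hB : 0 ≤ 2 * lp + 2 * s + l := by linarith
  have h6 : n * (n * (k * lp)) ≤ n * (c ^ 2 * (d * (2 * lp + 2 * s + l) + n)) := by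
    calc n * (n * (k * lp)) = n ^ 2 * (k * lp) := by ring
      _ ≤ c ^ 2 * (g ^ 2 * (k * lp)) := h3
      _ ≤ c ^ 2 * (n * (d * (2 * lp + lk + l) + n)) := mul_le_mul_of_nonneg_left h4 (sq_nonneg c)
      _ ≤ c ^ 2 * (n * (d * (2 * lp + 2 * s + l) + n)) := by
          apply mul_le_mul_of_nonneg_left _ (sq_nonneg c)
          apply mul_le_mul_of_nonneg_left _ (by linarith)
          have : d * (2 * lp + lk + l) ≤ d * (2 * lp + 2 * s + l) :=
            mul_le_mul_of_nonneg_left (by linarith) (by linarith)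
          linarith
      _ = n * (c ^ 2 * (d * (2 * lp + 2 * s + l) + n)) := by ring
  have h7 : n * (k * lp) ≤ c ^ 2 * (d * (2 * lp + 2 * s + l) + n) :=
    le_of_mul_le_mul_left h6 (by linarith)
  have h8 : n * (k * lp * l) ≤ n * (c ^ 3 * (2 * lp + 2 * s + l) + c ^ 2 * l) := by
    calc n * (k * lp * l) = (n * (k * lp)) * l := by ring
      _ ≤ (c ^ 2 * (d * (2 * lp + 2 * s + l) + n)) * l :=
          mul_le_mul_of_nonneg_right h7 (by linarith)
      _ = c ^ 2 * (2 * lp + 2 * s + l) * (d * l) + c ^ 2 * n * l := by ring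
      _ ≤ c ^ 2 * (2 * lp + 2 * s + l) * (c * n) + c ^ 2 * n * l := by
          have := mul_le_mul_of_nonneg_left hdl (mul_nonneg (sq_nonneg c) hB)
          linarith
      _ = n * (c ^ 3 * (2 * lp + 2 * s + l) + c ^ 2 * l) := by ring
  have h9 : k * lp * l ≤ c ^ 3 * (2 * lp + 2 * s + l) + c ^ 2 * l :=
    le_of_mul_le_mul_left h8 (by linarith)
  have h11 : s * (8 * (s * (lp * l))) ≤ s * (2 * lp + 2 * s + 2 * l) := by
    calc s * (8 * (s * (lp * l))) = 8 * (k * lp * l) := by rw [← hs2]; ring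
      _ ≤ 8 * (c ^ 3 * (2 * lp + 2 * s + l) + c ^ 2 * l) := by linarith
      _ = 8 * c ^ 3 * (2 * lp + 2 * s + l) + 8 * c ^ 2 * l := by ring
      _ ≤ s * (2 * lp + 2 * s + l) + s * l :=
          add_le_add (mul_le_mul_of_nonneg_right hc3 hB)
            (mul_le_mul_of_nonneg_right hc2 (by linarith))
      _ = s * (2 * lp + 2 * s + 2 * l) := by ring
  have h12 : 8 * (s * (lp * l)) ≤ 2 * lp + 2 * s + 2 * l := le_of_mul_le_mul_left h11 (by linarith)
  -- contradiction
  have h13 : (0.69:ℝ) * 0.69 ≤ lp * l := mul_le_mul hlp1 hl1 (by norm_num) (by linarith)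
  have h14 : s * ((0.69:ℝ) * 0.69) ≤ s * (lp * l) := mul_le_mul_of_nonneg_left h13 hs0
  have h15 : 8 * (lp * l) ≤ s * (lp * l) := mul_le_mul_of_nonneg_right hs8 (by linarith)
  have h16 : lp * 0.69 ≤ lp * l := mul_le_mul_of_nonneg_left hl1 (by linarith)
  have h17 : 0.69 * l ≤ lp * l := mul_le_mul_of_nonneg_right hlp1 (by linarith)
  linarith

/-- **the bound modulo a prime number** -/
theorem bound_p (f : ℤ[X]) (hf : Irreducible f)
    (hM : 1 < (f.map (Int.castRingHom ℂ)).mahlerMeasure) {K : ℕ} (hK : 0 < K)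
    {p : ℕ} (hp : p.Prime)
    (hnd : ∀ z w : ℂ, aeval z f = 0 → aeval w f = 0 → ∀ s : ℕ,
      z ^ (K * p ^ s) = w ^ (K * p ^ s) → z = w)
    (c : ℝ) (A B : (ZMod p)[X]) (hAB : f.map (Int.castRingHom (ZMod p)) = A * B)
    (hco : IsCoprime A B) (hA : (f.natDegree : ℝ) ≤ c * A.natDegree)
    (h : ℤ[X]) (hhm : h.Monic)
    (hAh : A ∣ expand (ZMod p) K (h.map (Int.castRingHom (ZMod p))))
    (hd : h.natDegree * Real.log (2 * f.natDegree) ≤ c * f.natDegree) :
    min 2 (Real.exp (f.natDegree / (2 * K * h.natDegree * (p : ℝ) ^ ⌈64 * c ^ 6⌉₊))) ≤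
      (f.map (Int.castRingHom ℂ)).mahlerMeasure := by
  have : Fact p.Prime := ⟨hp⟩
  apply reduction f hf hM
  intro g hg hgi hgm hgM
  have hgd := natDegree_pm hg
  obtain ⟨B', hB', hco'⟩ : ∃ B' : (ZMod p)[X], g.map (Int.castRingHom (ZMod p)) = A * B' ∧
      IsCoprime A B' := by
    rcases hg with rfl | rfl
    · exact ⟨B, hAB, hco⟩
    · exact ⟨-B, by rw [Polynomial.map_neg, hAB]; ring, hco.neg_right⟩
  have hn := irr_natDegree hgi hgm
  rw [hgd] at hn
  have hn1 : (1:ℝ) ≤ f.natDegree := by exact_mod_cast hn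
  have hAnn : (0:ℝ) ≤ A.natDegree := Nat.cast_nonneg _
  -- the degree of `h` is positive
  have hApos : 0 < A.natDegree := by
    rcases Nat.eq_zero_or_pos A.natDegree with h0 | h0
    · rw [h0] at hA
      norm_num at hA
      linarith
    · exact h0
  have hht : 0 < h.natDegree := by
    rcases Nat.eq_zero_or_pos h.natDegree with h0 | h0
    · exfalso
      have h1 : h = 1 := hhm.natDegree_eq_zero.mp h0
      rw [h1] at hAh
      simp only [Polynomial.map_one, map_one] at hAh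
      have h2 := natDegree_eq_zero_of_isUnit (isUnit_of_dvd_one hAh)
      omega
    · exact h0
  have hAn : (A.natDegree : ℝ) ≤ f.natDegree := by
    have h1 : A ∣ g.map (Int.castRingHom (ZMod p)) := ⟨B', hB'⟩
    have h2 := natDegree_le_of_dvd h1 (hgm.map _).ne_zero
    rw [hgm.natDegree_map, hgd] at h2
    exact_mod_cast h2
  have hc1 : 1 ≤ c := by
    by_contra hcon
    push Not at hcon
    have : c * A.natDegree ≤ 1 * A.natDegree := mul_le_mul_of_nonneg_right hcon.le hAnn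
    have h2 : (0:ℝ) < A.natDegree := by exact_mod_cast hApos
    nlinarith
  set k : ℕ := ⌈64 * c ^ 6⌉₊ with hk
  have hkc : 64 * c ^ 6 ≤ k := Nat.le_ceil _
  have hc6 : (1:ℝ) ≤ c ^ 6 := one_le_pow₀ hc1
  have hk64 : (64:ℝ) ≤ k := by linarith
  have hk0 : 0 < k := by
    have : (0:ℝ) < k := by linarith
    exact_mod_cast this
  obtain ⟨G, hAG, hGn, key⟩ := ineq_p g hgi hgm hgM hK hp
    (fun z w hz hw => hnd z w (zeros_pm hg z hz) (zeros_pm hg w hw)) A B' hB' hco' h hhm hht
    hAh k hk0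
  rw [hgd] at key hGn
  have hlog2 := Real.log_two_gt_d9
  have hlp : Real.log 2 ≤ Real.log p := Real.log_le_log (by norm_num) (by exact_mod_cast hp.two_le)
  have hl2 : Real.log 2 ≤ Real.log (2 * f.natDegree) :=
    Real.log_le_log (by norm_num) (by linarith)
  have hp2 : (2:ℝ) ≤ p := by exact_mod_cast hp.two_le
  have hgeom := geom_le p k
  have hS0 : 0 ≤ ∑ a ∈ Finset.range k, (p : ℝ) ^ a :=
    Finset.sum_nonneg fun _ _ => by positivity
  have hS : ∑ a ∈ Finset.range k, (p : ℝ) ^ a ≤ (p:ℝ) ^ k := by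
    have : (1:ℝ) * ∑ a ∈ Finset.range k, (p : ℝ) ^ a ≤
        ((p : ℝ) - 1) * ∑ a ∈ Finset.range k, (p : ℝ) ^ a :=
      mul_le_mul_of_nonneg_right (by linarith) hS0
    linarith
  have hlk : Real.log k ≤ 2 * √(k:ℝ) := by
    have hs0 : 0 < √(k:ℝ) := Real.sqrt_pos.mpr (by linarith)
    have h1 : Real.log (√(k:ℝ)) ≤ √(k:ℝ) - 1 := Real.log_le_sub_one_of_pos hs0
    rw [Real.log_sqrt (by linarith)] at h1
    linarith
  have hlkn : Real.log (k * f.natDegree) ≤ Real.log k + Real.log (2 * f.natDegree) := by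
    rw [Real.log_mul (by linarith) (by linarith)]
    have : Real.log f.natDegree ≤ Real.log (2 * f.natDegree) :=
      Real.log_le_log (by linarith) (by linarith)
    linarith
  have hK1 : (1:ℝ) ≤ K := by exact_mod_cast hK
  have fin := est_p (n := f.natDegree) (d := h.natDegree) (a := A.natDegree) (g := G) (c := c)
    (k := k) (l := Real.log (2 * f.natDegree)) (lk := Real.log k) (lp := Real.log p)
    (lkn := Real.log (k * f.natDegree)) (S := ∑ a ∈ Finset.range k, (p : ℝ) ^ a) (P := (p:ℝ) ^ k)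
    (Kr := K) (lM := Real.log (g.map (Int.castRingHom ℂ)).mahlerMeasure) hn1
    (by exact_mod_cast hht) (by exact_mod_cast hAG) (by exact_mod_cast hGn) hA hAnn hd hkc
    hl2 hlp hlk hlkn hS (by linarith) (Real.log_pos hgM).le key
  have hd1 : (1:ℝ) ≤ h.natDegree := by exact_mod_cast hht
  rw [div_le_iff₀ (by positivity)]
  linarith

/-- coefficients -/
lemma mem_span_of_coeff (f : ℤ[X]) {K : ℕ} (hK : 0 < K) (q : ℤ)
    (hc : ∀ i, ¬ K ∣ i → q ∣ f.coeff i) :
    expand ℤ K (contract K f) ∈ Ideal.span {f, C q} := by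
  have h1 : C q ∣ expand ℤ K (contract K f) - f := by
    rw [Polynomial.C_dvd_iff_dvd_coeff]
    intro i
    rw [coeff_sub, coeff_expand hK]
    split_ifs with hi
    · rw [coeff_contract hK.ne', Nat.div_mul_cancel hi, sub_self]
      exact dvd_zero _
    · rw [zero_sub, dvd_neg]
      exact hc i hi
  obtain ⟨r, hr⟩ := h1
  refine Ideal.mem_span_pair.mpr ⟨1, r, ?_⟩
  rw [one_mul, mul_comm, ← hr]
  ring

/-- **polynomials which are polynomials in `X ^ K` modulo `q`** -/
theorem bound_coeff (f : ℤ[X]) (hf : Irreducible f)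
    (hM : 1 < (f.map (Int.castRingHom ℂ)).mahlerMeasure) {K : ℕ} (hK : 0 < K)
    (hnd : ∀ z w : ℂ, aeval z f = 0 → aeval w f = 0 → z ^ K = w ^ K → z = w)
    {q : ℕ} (hq : 2 ≤ q) (hc : ∀ i, ¬ K ∣ i → (q : ℤ) ∣ f.coeff i)
    (hd : 4 * (Real.log (2 * f.natDegree) + Real.log q) ≤ K * Real.log q) :
    min 2 ((q : ℝ) ^ (1 / 4 : ℝ)) ≤ (f.map (Int.castRingHom ℂ)).mahlerMeasure := by
  have hq0 : (0:ℝ) < q := by exact_mod_cast (by omega : 0 < q)
  have hK1 : (1:ℝ) ≤ K := by exact_mod_cast hK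
  rw [Real.rpow_def_of_pos hq0]
  apply reduction f hf hM
  intro g hg hgi hgm hgM
  have hgd := natDegree_pm hg
  have hcg : ∀ i, ¬ K ∣ i → (q : ℤ) ∣ g.coeff i := by
    intro i hi
    rcases hg with rfl | rfl
    · exact hc i hi
    · rw [coeff_neg, dvd_neg]
      exact hc i hi
  have hn := irr_natDegree hgi hgm
  have hKn : K ∣ g.natDegree := by
    by_contra hcon
    have h1 := hcg _ hcon
    rw [hgm.coeff_natDegree] at h1
    have h2 := Int.le_of_dvd one_pos h1
    have h3 : (2:ℤ) ≤ q := by exact_mod_cast hq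
    omega
  obtain ⟨d, hd'⟩ := hKn
  have hd0 : 0 < d := by
    rcases Nat.eq_zero_or_pos d with h0 | h0
    · rw [h0, mul_zero] at hd'
      omega
    · exact h0
  have hcd : (contract K g).coeff d = 1 := by
    rw [coeff_contract hK.ne', mul_comm, ← hd', hgm.coeff_natDegree]
  have hle : (contract K g).natDegree ≤ d := by
    rw [natDegree_le_iff_coeff_eq_zero]
    intro N hN
    rw [coeff_contract hK.ne']
    apply coeff_eq_zero_of_natDegree_lt
    rw [hd', mul_comm]
    exact Nat.mul_lt_mul_of_pos_right hN hK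
  have hcm : (contract K g).Monic := monic_of_natDegree_le_of_coeff_eq_one d hle hcd
  have hcdeg : (contract K g).natDegree = d := by
    apply le_antisymm hle
    apply le_natDegree_of_ne_zero
    rw [hcd]
    exact one_ne_zero
  have hdr : (1:ℝ) ≤ d := by exact_mod_cast hd0
  have hnr : (g.natDegree : ℝ) = K * d := by rw [hd']; push_cast; ring
  have h1 := monic_q g hgi hgm hgM hK
    (fun z w hz hw => hnd z w (zeros_pm hg z hz) (zeros_pm hg w hw)) hq (contract K g) hcm
    (by rw [hcdeg]; exact hd0) (mem_span_of_coeff g hK q hcg) (by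
      rw [hcdeg]
      rw [← hgd] at hd
      rw [hnr] at hd ⊢
      calc 4 * (d:ℝ) * (Real.log (2 * (K * d)) + Real.log q)
          = d * (4 * (Real.log (2 * (K * d)) + Real.log q)) := by ring
        _ ≤ d * (K * Real.log q) := mul_le_mul_of_nonneg_left hd (by linarith)
        _ = K * d * Real.log q := by ring)
  rw [hcdeg, hnr] at h1
  have e : (K:ℝ) * d * Real.log q / (4 * K * d) = Real.log q * (1 / 4) := by
    field_simp
  rwa [e] at h1

end Pool.Agent.Helper692_LM
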