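import Mathlib

/-!
# A polynomial over a perfect field whose zeros are the `K`-th powers of given zeros
-/

set_option autoImplicit false

open Polynomial Finset

namespace Pool.Agent.Helper692_LM

/-- For a separable polynomial `A` over a perfect field there is a monic polynomial `h` with
`A ∣ h (X ^ K)` whose degree is at most the number of the `K`-th powers of the zeros of `A`. -/
theorem exists_power_poly {k : Type*} [Field k] [PerfectField k] (A : k[X]) (hA : A.Separable)
    (K : ℕ) :
    ∃ h : k[X], h.Monic ∧ A ∣ expand k K h ∧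
      h.natDegree ≤ ((fun z : AlgebraicClosure k => z ^ K) ''
        (A.rootSet (AlgebraicClosure k))).ncard := by
  classical
  set Ω := AlgebraicClosure k with hΩ
  have hA0 : A ≠ 0 := hA.ne_zero
  have hfin : (A.rootSet Ω).Finite := rootSet_finite A Ω
  have hint : ∀ w : Ω, IsIntegral k w := fun w => Algebra.IsIntegral.isIntegral w
  set Z : Finset Ω := hfin.toFinset with hZ
  set S : Finset k[X] := Z.image fun z => minpoly k (z ^ K) with hS
  have hirr : ∀ q ∈ S, Irreducible q := by
    intro q hq
    obtain ⟨z, -, rfl⟩ := Finset.mem_image.mp hq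
    exact minpoly.irreducible (hint _)
  have hmon : ∀ q ∈ S, q.Monic := by
    intro q hq
    obtain ⟨z, -, rfl⟩ := Finset.mem_image.mp hq
    exact minpoly.monic (hint _)
  set h : k[X] := ∏ q ∈ S, q with hh
  have hhm : h.Monic := monic_prod_of_monic _ _ hmon
  have hsep : h.Separable := by
    rw [hh]
    apply separable_prod'
    · intro q hq r hr hne
      rw [(hirr q hq).coprime_iff_not_dvd]
      intro hdvd
      apply hne
      exact eq_of_monic_of_associated (hmon q hq) (hmon r hr)
        (((hirr q hq).dvd_irreducible_iff_associated (hirr r hr)).mp hdvd)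
    · intro q hq
      exact PerfectField.separable_of_irreducible (hirr q hq)
  refine ⟨h, hhm, ?_, ?_⟩
  · -- divisibility
    have hroot : ∀ z : Ω, aeval z A = 0 → aeval z (expand k K h) = 0 := by
      intro z hz
      rw [expand_aeval, hh, map_prod]
      apply Finset.prod_eq_zero (i := minpoly k (z ^ K))
      · rw [hS, Finset.mem_image]
        refine ⟨z, ?_, rfl⟩
        rw [hZ, Set.Finite.mem_toFinset, mem_rootSet]
        exact ⟨hA0, hz⟩
      · exact minpoly.aeval _ _
    have hinj : Function.Injective (algebraMap k Ω) := (algebraMap k Ω).injective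
    rw [← Polynomial.map_dvd_map' (algebraMap k Ω)]
    have hsplit : (A.map (algebraMap k Ω)).Splits := IsAlgClosed.splits _
    have hAm : A.map (algebraMap k Ω) ≠ 0 := (Polynomial.map_ne_zero_iff hinj).mpr hA0
    rw [hsplit.eq_prod_roots]
    have hu : IsUnit (C (A.map (algebraMap k Ω)).leadingCoeff : Polynomial Ω) :=
      isUnit_C.mpr (leadingCoeff_ne_zero.mpr hAm).isUnit
    rw [hu.mul_left_dvd]
    by_cases hE : (expand k K h).map (algebraMap k Ω) = 0
    · rw [hE]
      exact dvd_zero _
    rw [Multiset.prod_X_sub_C_dvd_iff_le_roots hE]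
    have hnd : (A.map (algebraMap k Ω)).roots.Nodup := nodup_roots hA.map
    rw [Multiset.le_iff_subset hnd]
    intro z hz
    rw [mem_roots hAm, IsRoot.def, eval_map_algebraMap] at hz
    rw [mem_roots hE, IsRoot.def, eval_map_algebraMap]
    exact hroot z hz
  · -- the degree
    have h1 : Fintype.card (h.rootSet Ω) = h.natDegree :=
      card_rootSet_eq_natDegree hsep (IsAlgClosed.splits _)
    rw [← h1, ← Nat.card_eq_fintype_card, Nat.card_coe_set_eq]
    apply Set.ncard_le_ncard _ (hfin.image _)
    intro w hw
    rw [mem_rootSet] at hw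
    have hw2 := hw.2
    rw [hh, map_prod, Finset.prod_eq_zero_iff] at hw2
    obtain ⟨q, hq, hqw⟩ := hw2
    obtain ⟨z, hz, rfl⟩ := Finset.mem_image.mp hq
    rw [hZ, Set.Finite.mem_toFinset, mem_rootSet] at hz
    obtain ⟨σ, hσ⟩ := minpoly.exists_algEquiv_of_root (hint (z ^ K)).isAlgebraic hqw
    refine ⟨σ.symm z, ?_, ?_⟩
    · rw [mem_rootSet]
      refine ⟨hA0, ?_⟩
      have h2 := Polynomial.aeval_algHom_apply σ.symm.toAlgHom z A
      rw [hz.2, map_zero] at h2
      exact h2
    · change (σ.symm z) ^ K = w
      rw [← map_pow, ← hσ]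
      exact σ.symm_apply_apply w

end Pool.Agent.Helper692_LM
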