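import Mathlib
import Pool.Agent.Helper692_LM.Main
import Pool.Agent.Helper692_LM.Zeros

/-!
# The bound in terms of the number of `K`-th powers of zeros modulo `p`
-/

set_option autoImplicit false

open Polynomial Finset

namespace Pool.Agent.Helper692_LM

/-- an integer polynomial whose zeros modulo `p` are the `K`-th powers of the zeros of `A` -/
theorem exists_int_poly {p : ℕ} [hpf : Fact p.Prime] (A : (ZMod p)[X]) (hsq : Squarefree A)
    (K : ℕ) :
    ∃ h : ℤ[X], h.Monic ∧ A ∣ expand (ZMod p) K (h.map (Int.castRingHom (ZMod p))) ∧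
      h.natDegree ≤ ((fun z : AlgebraicClosure (ZMod p) => z ^ K) ''
        (A.rootSet (AlgebraicClosure (ZMod p)))).ncard := by
  have hsep : A.Separable := PerfectField.separable_iff_squarefree.mpr hsq
  obtain ⟨h', hm', hdvd, hdeg⟩ := exists_power_poly A hsep K
  obtain ⟨h, hh, hhd, hhm⟩ := lifts_and_natDegree_eq_and_monic
    (f := Int.castRingHom (ZMod p)) (p := h') (by
      rw [lifts_iff_coeff_lifts]
      intro n
      exact ⟨(h'.coeff n).val, by simp⟩) hm'
  exact ⟨h, hhm, by rw [hh]; exact hdvd, by rw [hhd]; exact hdeg⟩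

/-- **the bound modulo a prime number, in terms of an upper bound for the degree of `h`** -/
theorem bound_d (f : ℤ[X]) (hf : Irreducible f)
    (hM : 1 < (f.map (Int.castRingHom ℂ)).mahlerMeasure) {K : ℕ} (hK : 0 < K)
    {p : ℕ} (hp : p.Prime)
    (hnd : ∀ z w : ℂ, aeval z f = 0 → aeval w f = 0 → ∀ s : ℕ,
      z ^ (K * p ^ s) = w ^ (K * p ^ s) → z = w)
    (c : ℝ) (hc : 1 ≤ c) (A B : (ZMod p)[X]) (hAB : f.map (Int.castRingHom (ZMod p)) = A * B)
    (hco : IsCoprime A B) (hA : (f.natDegree : ℝ) ≤ c * A.natDegree) (d : ℕ)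
    (hh : ∃ h : ℤ[X], h.Monic ∧ A ∣ expand (ZMod p) K (h.map (Int.castRingHom (ZMod p))) ∧
      h.natDegree ≤ d)
    (hd : d * Real.log (2 * f.natDegree) ≤ c * f.natDegree) :
    min 2 (Real.exp (f.natDegree / (2 * K * d * (p : ℝ) ^ ⌈64 * c ^ 6⌉₊))) ≤
        (f.map (Int.castRingHom ℂ)).mahlerMeasure ∧
      ((K : ℝ) * d ≤ c * f.natDegree →
        Real.exp (1 / (2 * c * (p : ℝ) ^ ⌈64 * c ^ 6⌉₊)) ≤
          (f.map (Int.castRingHom ℂ)).mahlerMeasure) := by
  have : Fact p.Prime := ⟨hp⟩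
  obtain ⟨h, hhm, hdvd, hdeg⟩ := hh
  rcases le_or_gt 2 (f.map (Int.castRingHom ℂ)).mahlerMeasure with h2 | h2
  · refine ⟨(min_le_left _ _).trans h2, fun _ => le_trans ?_ h2⟩
    rw [← Real.le_log_iff_exp_le two_pos]
    have h4 := Real.log_two_gt_d9
    have hp2 : (2:ℝ) ≤ p := by exact_mod_cast hp.two_le
    have hP1 : 1 ≤ (p : ℝ) ^ ⌈64 * c ^ 6⌉₊ := one_le_pow₀ (by linarith)
    have h5 : 1 / (2 * c * (p : ℝ) ^ ⌈64 * c ^ 6⌉₊) ≤ 1 / 2 := by
      apply one_div_le_one_div_of_le (by norm_num)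
      nlinarith [mul_le_mul hc hP1 zero_le_one (by linarith : (0:ℝ) ≤ c)]
    linarith
  -- the degree of `f` is positive
  have hf0 : 0 < f.natDegree := by
    rcases Nat.eq_zero_or_pos f.natDegree with h0 | h0
    · exfalso
      obtain ⟨hlc, -⟩ := Pool.Agent.H389R3.LP.units_of_lt_two f hf hM h2
      have h1 := eq_C_of_natDegree_eq_zero h0
      have h3 : f.leadingCoeff = f.coeff 0 := by rw [leadingCoeff, h0]
      rw [h3] at hlc
      have h5 : IsUnit (f.coeff 0) := Int.isUnit_iff.mpr ((abs_eq (zero_le_one' ℤ)).mp hlc)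
      apply hf.not_isUnit
      rw [h1]
      exact isUnit_C.mpr h5
    · exact h0
  have hn1 : (1:ℝ) ≤ f.natDegree := by exact_mod_cast hf0
  have hh0 : 0 < h.natDegree := by
    rcases Nat.eq_zero_or_pos h.natDegree with h0 | h0
    · exfalso
      have h1 : h = 1 := hhm.natDegree_eq_zero.mp h0
      rw [h1] at hdvd
      simp only [Polynomial.map_one, map_one] at hdvd
      have h3 := natDegree_eq_zero_of_isUnit (isUnit_of_dvd_one hdvd)
      rw [h3, Nat.cast_zero, mul_zero] at hA
      linarith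
    · exact h0
  have hl : 0 ≤ Real.log (2 * f.natDegree) := Real.log_nonneg (by linarith)
  have hdr : (h.natDegree : ℝ) ≤ d := by exact_mod_cast hdeg
  have key := bound_p f hf hM hK hp hnd c A B hAB hco hA h hhm hdvd
    ((mul_le_mul_of_nonneg_right hdr hl).trans hd)
  have hp0 : (0:ℝ) < p := by exact_mod_cast hp.pos
  have hK0 : (0:ℝ) < K := by exact_mod_cast hK
  have hh1 : (0:ℝ) < h.natDegree := by exact_mod_cast hh0
  set P : ℝ := (p : ℝ) ^ ⌈64 * c ^ 6⌉₊ with hP
  have hP0 : 0 < P := by positivity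
  have hmain : Real.exp (f.natDegree / (2 * K * h.natDegree * P)) ≤
      (f.map (Int.castRingHom ℂ)).mahlerMeasure := by
    rcases min_le_iff.mp key with h3 | h3
    · linarith
    · exact h3
  constructor
  · refine le_trans (min_le_right _ _) (le_trans ?_ hmain)
    apply Real.exp_le_exp.mpr
    apply div_le_div_of_nonneg_left (Nat.cast_nonneg _) (by positivity)
    apply mul_le_mul_of_nonneg_right _ hP0.le
    exact mul_le_mul_of_nonneg_left hdr (by positivity)
  · intro hKd
    refine le_trans ?_ hmain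
    apply Real.exp_le_exp.mpr
    rw [div_le_div_iff₀ (by positivity) (by positivity)]
    have h6 : (K : ℝ) * h.natDegree ≤ c * f.natDegree :=
      (mul_le_mul_of_nonneg_left hdr hK0.le).trans hKd
    have h7 := mul_le_mul_of_nonneg_right h6 hP0.le
    nlinarith

end Pool.Agent.Helper692_LM
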